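import Pool.Agent.MP_ea150c_mp.H20.SpecM

/-! Existence of spanning trees, and the forest bound. -/

namespace Pool.Agent.MP_ea150c_mp.H24

open Pool.Agent.MP_ea150c_mp.H20

variable {V E : Type} [Fintype V] [DecidableEq V] [Fintype E] [DecidableEq E] (s t : E → V)

omit [Fintype V] [DecidableEq V] [Fintype E] [DecidableEq E] in
theorem exists_leaving {T : Finset E} (hT : Conn s t T) (W : Finset V) {w v : V} (hw : w ∈ W)
    (hv : v ∉ W) : ∃ e ∈ T, (s e ∈ W ∧ t e ∉ W) ∨ (s e ∉ W ∧ t e ∈ W) := by
  by_contra hne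
  have key : ∀ a b, Relation.EqvGen (fun a b => ∃ e ∈ T, s e = a ∧ t e = b) a b →
      (a ∈ W ↔ b ∈ W) := by
    intro a b h
    induction h with
    | rel a b h =>
      obtain ⟨e, he, rfl, rfl⟩ := h
      by_contra hc
      exact hne ⟨e, he, by tauto⟩
    | refl a => exact Iff.rfl
    | symm a b _ ih => exact ih.symm
    | trans a b c _ _ ih1 ih2 => exact ih1.trans ih2
  exact hv ((key w v (hT w v)).1 hw)

omit [Fintype E] in
theorem grow {T : Finset E} (hT : Conn s t T) (W₀ : Finset V) (h0 : W₀.Nonempty) (k : ℕ)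
    (hk : W₀.card + k ≤ Fintype.card V) :
    ∃ (W : Finset V) (T' : Finset E), W₀ ⊆ W ∧ T' ⊆ T ∧ W.card = W₀.card + k ∧ T'.card = k ∧
      (∀ e ∈ T', ¬ (s e ∈ W₀ ∧ t e ∈ W₀)) ∧ (∀ e ∈ T', s e ∈ W ∧ t e ∈ W) ∧
      ∀ v ∈ W, ∃ w ∈ W₀, Relation.EqvGen (fun a b => ∃ e ∈ T', s e = a ∧ t e = b) w v := by
  induction k with
  | zero =>
    exact ⟨W₀, ∅, subset_rfl, Finset.empty_subset _, rfl, rfl, by simp, by simp,
      fun v hv => ⟨v, hv, Relation.EqvGen.refl v⟩⟩
  | succ k ih =>
    obtain ⟨W, T', hW, hT', hc, hc', hout, hin, hj⟩ := ih (by omega)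
    obtain ⟨w, hw⟩ := h0
    have hne : ∃ v, v ∉ W := by
      by_contra hall
      have : W = Finset.univ := Finset.eq_univ_of_forall fun v => by
        by_contra hv
        exact hall ⟨v, hv⟩
      rw [this, Finset.card_univ] at hc
      omega
    obtain ⟨v, hv⟩ := hne
    obtain ⟨e, he, hee⟩ := exists_leaving s t hT W (hW hw) hv
    have hmono : ∀ a b, Relation.EqvGen (fun a b => ∃ e ∈ T', s e = a ∧ t e = b) a b →
        Relation.EqvGen (fun a b => ∃ e' ∈ insert e T', s e' = a ∧ t e' = b) a b := by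
      intro a b h
      refine Relation.EqvGen.mono ?_ _ _ h
      rintro a b ⟨e', he', h1, h2⟩
      exact ⟨e', Finset.mem_insert_of_mem he', h1, h2⟩
    have hrel : Relation.EqvGen (fun a b => ∃ e' ∈ insert e T', s e' = a ∧ t e' = b) (s e) (t e) :=
      Relation.EqvGen.rel _ _ ⟨e, Finset.mem_insert_self _ _, rfl, rfl⟩
    have heT' : e ∉ T' := fun h => by
      have := hin e h
      tauto
    have hout' : ∀ e' ∈ insert e T', ¬ (s e' ∈ W₀ ∧ t e' ∈ W₀) := by
      intro e' he'
      rcases Finset.mem_insert.1 he' with rfl | he'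
      · rintro ⟨h1, h2⟩
        have := hW h1
        have := hW h2
        tauto
      · exact hout e' he'
    rcases hee with ⟨h1, h2⟩ | ⟨h1, h2⟩
    · refine ⟨insert (t e) W, insert e T', hW.trans (Finset.subset_insert _ _),
        Finset.insert_subset he hT', by rw [Finset.card_insert_of_notMem h2]; omega,
        by rw [Finset.card_insert_of_notMem heT']; omega, hout', ?_, ?_⟩
      · intro e' he'
        rcases Finset.mem_insert.1 he' with rfl | he'
        · exact ⟨Finset.mem_insert_of_mem h1, Finset.mem_insert_self _ _⟩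
        · exact ⟨Finset.mem_insert_of_mem (hin e' he').1, Finset.mem_insert_of_mem (hin e' he').2⟩
      · intro u hu
        rcases Finset.mem_insert.1 hu with rfl | hu
        · obtain ⟨w', hw', h⟩ := hj _ h1
          exact ⟨w', hw', Relation.EqvGen.trans _ _ _ (hmono _ _ h) hrel⟩
        · obtain ⟨w', hw', h⟩ := hj _ hu
          exact ⟨w', hw', hmono _ _ h⟩
    · refine ⟨insert (s e) W, insert e T', hW.trans (Finset.subset_insert _ _),
        Finset.insert_subset he hT', by rw [Finset.card_insert_of_notMem h1]; omega,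
        by rw [Finset.card_insert_of_notMem heT']; omega, hout', ?_, ?_⟩
      · intro e' he'
        rcases Finset.mem_insert.1 he' with rfl | he'
        · exact ⟨Finset.mem_insert_self _ _, Finset.mem_insert_of_mem h2⟩
        · exact ⟨Finset.mem_insert_of_mem (hin e' he').1, Finset.mem_insert_of_mem (hin e' he').2⟩
      · intro u hu
        rcases Finset.mem_insert.1 hu with rfl | hu
        · obtain ⟨w', hw', h⟩ := hj _ h2
          exact ⟨w', hw', Relation.EqvGen.trans _ _ _ (hmono _ _ h)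
            (Relation.EqvGen.symm _ _ hrel)⟩
        · obtain ⟨w', hw', h⟩ := hj _ hu
          exact ⟨w', hw', hmono _ _ h⟩

theorem sSpan : SSpan := by
  intro V E _ _ _ _ s t
  refine ⟨fun T hV hT => ?_, fun T W hT hW => ?_⟩
  · obtain ⟨r⟩ := hV
    have hpos : 0 < Fintype.card V := Fintype.card_pos_iff.2 ⟨r⟩
    obtain ⟨W, T', -, hT', hc, hc', -, -, hj⟩ := grow s t hT {r} (Finset.singleton_nonempty r)
      (Fintype.card V - 1) (by rw [Finset.card_singleton]; omega)
    rw [Finset.card_singleton] at hc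
    have hWu : W = Finset.univ := Finset.eq_univ_of_card W (by omega)
    refine ⟨T', hT', fun u v => ?_, by omega⟩
    obtain ⟨w1, hw1, h1⟩ := hj u (hWu ▸ Finset.mem_univ u)
    obtain ⟨w2, hw2, h2⟩ := hj v (hWu ▸ Finset.mem_univ v)
    rw [Finset.mem_singleton] at hw1 hw2
    subst hw1
    subst hw2
    exact Relation.EqvGen.trans _ _ _ (Relation.EqvGen.symm _ _ h1) h2
  · have hle : W.card ≤ Fintype.card V := Finset.card_le_univ W
    obtain ⟨W', T', -, hT', -, hc', hout, -, -⟩ := grow s t hT.1 W hW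
      (Fintype.card V - W.card) (by omega)
    have hsub : T' ⊆ T.filter fun e => ¬ (s e ∈ W ∧ t e ∈ W) := fun e he =>
      Finset.mem_filter.2 ⟨hT' he, hout e he⟩
    have h1 := Finset.card_le_card hsub
    have h2 := Finset.card_filter_add_card_filter_not (s := T) fun e => s e ∈ W ∧ t e ∈ W
    have h3 := hT.2
    omega

end Pool.Agent.MP_ea150c_mp.H24
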